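import Pool.Agent.helper132_p.P16

/-! Interpolation: from the endpoint bound to the strong type bounds. -/

namespace Pool.Agent.helper132_lp

open Finset Pool.Agent.helper132_sph
open scoped ENNReal NNReal

/-- averages of extended nonnegative functions. -/
noncomputable def PA (k : ℕ) {d : ℕ} (n : ℕ) (g : (Fin d → ℤ) → ℝ≥0∞) (x : Fin d → ℤ) : ℝ≥0∞ :=
  (∑ y ∈ SpF k d n, g (x - y)) * ((SpF k d n).card : ℝ≥0∞)⁻¹

lemma PA_mono (k : ℕ) {d : ℕ} (n : ℕ) (g h : (Fin d → ℤ) → ℝ≥0∞) (hgh : ∀ x, g x ≤ h x)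
    (x : Fin d → ℤ) : PA k n g x ≤ PA k n h x := by
  unfold PA
  gcongr
  exact hgh _

lemma PA_add_tsum (k : ℕ) {d : ℕ} (n : ℕ) (c : ℝ≥0∞) (a : ℕ → ℝ≥0∞)
    (g : ℕ → (Fin d → ℤ) → ℝ≥0∞) (x : Fin d → ℤ) :
    PA k n (fun y => c + ∑' m, a m * g m y) x ≤ c + ∑' m, a m * PA k n (g m) x := by
  unfold PA
  rw [Finset.sum_add_distrib, add_mul, Finset.sum_const, nsmul_eq_mul]
  refine add_le_add ?_ (le_of_eq ?_)
  · rw [mul_comm, ← mul_assoc]
    calc ((SpF k d n).card : ℝ≥0∞)⁻¹ * ((SpF k d n).card : ℝ≥0∞) * c ≤ 1 * c := by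
          gcongr
          exact ENNReal.inv_mul_le_one _
      _ = c := one_mul c
  · rw [← Summable.tsum_finsetSum (fun i _ => ENNReal.summable), ← ENNReal.tsum_mul_right]
    refine tsum_congr fun m => ?_
    rw [← Finset.mul_sum, mul_assoc]

lemma ofReal_norm_sphAvg_le (k n : ℕ) {d : ℕ} (r : ℝ) (hk : 1 ≤ k) (hr : r ^ k = n)
    (f : (Fin d → ℤ) → ℂ) (x : Fin d → ℤ) :
    ENNReal.ofReal ‖sphAvg k r f x‖ ≤ PA k n (fun y => ENNReal.ofReal ‖f y‖) x := by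
  have h1 := norm_sphAvg_le k n r hk hr f x
  refine (ENNReal.ofReal_le_ofReal h1).trans ?_
  unfold PA
  rcases (SpF k d n).eq_empty_or_nonempty with h0 | hne
  · rw [h0]; simp
  have hc : (0 : ℝ) < (SpF k d n).card := by exact_mod_cast hne.card_pos
  rw [div_eq_mul_inv, ENNReal.ofReal_mul (Finset.sum_nonneg fun _ _ => norm_nonneg _),
    ENNReal.ofReal_sum_of_nonneg fun _ _ => norm_nonneg _, ENNReal.ofReal_inv_of_pos hc,
    ENNReal.ofReal_natCast]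

lemma PA_indicator_le (k n : ℕ) {d : ℕ} (r : ℝ) (hk : 1 ≤ k) (hr : r ^ k = n) (hrr : r ∈ radii k d)
    (E : Set (Fin d → ℤ)) (x : Fin d → ℤ) :
    PA k n (E.indicator (fun _ => (1 : ℝ≥0∞))) x ≤ sphMax k (E.indicator (fun _ => (1 : ℂ))) x := by
  classical
  have h1 : ENNReal.ofReal ‖sphAvg k r (E.indicator (fun _ => (1 : ℂ))) x‖ ≤
      sphMax k (E.indicator (fun _ => (1 : ℂ))) x := by
    unfold sphMax
    exact le_iSup₂ (f := fun r _ => ENNReal.ofReal ‖sphAvg k r (E.indicator (fun _ => (1 : ℂ))) x‖) r hrr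
  refine le_trans (le_of_eq ?_) h1
  unfold sphAvg numPts PA
  rw [sphere_eq k d n r hk hr, Set.ncard_coe_finset, finsum_mem_coe_finset, norm_div, Complex.norm_natCast]
  have hne : (SpF k d n).Nonempty := by
    have := hrr.2
    rw [sphere_eq k d n r hk hr] at this
    exact Finset.coe_nonempty.1 this
  have hc : (0 : ℝ) < (SpF k d n).card := by exact_mod_cast hne.card_pos
  have h2 : ∑ y ∈ SpF k d n, E.indicator (fun _ => (1 : ℂ)) (x - y) =
      ((((SpF k d n).filter (fun y => x - y ∈ E)).card : ℕ) : ℂ) := by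
    rw [Finset.card_filter]
    push_cast
    refine Finset.sum_congr rfl fun y _ => ?_
    rw [Set.indicator_apply]
  have h3 : ∑ y ∈ SpF k d n, E.indicator (fun _ => (1 : ℝ≥0∞)) (x - y) =
      ((((SpF k d n).filter (fun y => x - y ∈ E)).card : ℕ) : ℝ≥0∞) := by
    rw [Finset.card_filter]
    push_cast
    refine Finset.sum_congr rfl fun y _ => ?_
    rw [Set.indicator_apply]
  rw [h2, h3, Complex.norm_natCast, div_eq_mul_inv, ENNReal.ofReal_mul (Nat.cast_nonneg _),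
    ENNReal.ofReal_inv_of_pos hc, ENNReal.ofReal_natCast, ENNReal.ofReal_natCast]

/-- dyadic level sets -/
def Lv {d : ℕ} (f : (Fin d → ℤ) → ℂ) (j : ℤ) : Set (Fin d → ℤ) :=
  {y | (2 : ℝ) ^ j < ‖f y‖ ∧ ‖f y‖ ≤ (2 : ℝ) ^ (j + 1)}

lemma dyadic_le {d : ℕ} (f : (Fin d → ℤ) → ℂ) (n : ℤ) (y : Fin d → ℤ) :
    ENNReal.ofReal ‖f y‖ ≤ ENNReal.ofReal ((2 : ℝ) ^ (n - 1)) +
      ∑' m : ℕ, ENNReal.ofReal ((2 : ℝ) ^ (n + m)) *
        (Lv f (n - 1 + m)).indicator (fun _ => (1 : ℝ≥0∞)) y := by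
  by_cases h : ‖f y‖ ≤ (2 : ℝ) ^ (n - 1)
  · exact (ENNReal.ofReal_le_ofReal h).trans le_self_add
  push Not at h
  have hpos : (0 : ℝ) < ‖f y‖ := lt_trans (by positivity) h
  obtain ⟨j, hj1, hj2⟩ := exists_mem_Ioc_zpow hpos (one_lt_two (α := ℝ))
  have hj3 : n - 1 < j + 1 := by
    have := h.trans_le hj2
    exact (zpow_lt_zpow_iff_right₀ (one_lt_two (α := ℝ))).1 this
  obtain ⟨m, hm⟩ : ∃ m : ℕ, j = n - 1 + m := ⟨(j - (n - 1)).toNat, by omega⟩
  refine le_trans ?_ (le_add_of_nonneg_left (zero_le))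
  refine le_trans ?_ (ENNReal.le_tsum m)
  rw [Set.indicator_of_mem, mul_one]
  · refine ENNReal.ofReal_le_ofReal ?_
    have : j + 1 = n + m := by omega
    rw [← this]; exact hj2
  · rw [← hm]
    exact ⟨hj1, hj2⟩

lemma sphMax_le {d : ℕ} (k : ℕ) (hk : 1 ≤ k) (f : (Fin d → ℤ) → ℂ) (n : ℤ) (x : Fin d → ℤ) :
    sphMax k f x ≤ ENNReal.ofReal ((2 : ℝ) ^ (n - 1)) +
      ∑' m : ℕ, ENNReal.ofReal ((2 : ℝ) ^ (n + m)) *
        sphMax k ((Lv f (n - 1 + m)).indicator (fun _ => (1 : ℂ))) x := by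
  unfold sphMax
  refine iSup₂_le fun r hr => ?_
  obtain ⟨N, hN1, hN2⟩ := radii_nat k d r hr
  refine (ofReal_norm_sphAvg_le k N r hk hN2 f x).trans ?_
  refine (PA_mono k N _ _ (fun y => dyadic_le f n y) x).trans ?_
  refine (PA_add_tsum k N _ _ _ x).trans ?_
  gcongr with m
  exact PA_indicator_le k N r hk hN2 hr _ x

end Pool.Agent.helper132_lp
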