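import Pool.Agent.helper132_lp.L1

/-! Interpolation: summing over the levels. -/

namespace Pool.Agent.helper132_lp

open Finset Pool.Agent.helper132_sph
open scoped ENNReal NNReal

lemma distr_eq {d : ℕ} (g : (Fin d → ℤ) → ℝ≥0∞) (t : ℝ) :
    distr g t = ∑' x, ({x | ENNReal.ofReal t < g x} : Set (Fin d → ℤ)).indicator (fun _ => (1 : ℝ≥0∞)) x := by
  unfold distr
  rw [← ENNReal.tsum_set_one]
  exact _root_.tsum_subtype _ (fun _ => (1 : ℝ≥0∞))

lemma encard_eq {d : ℕ} (E : Set (Fin d → ℤ)) :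
    ((E.encard : ℕ∞) : ℝ≥0∞) = ∑' x, E.indicator (fun _ => (1 : ℝ≥0∞)) x := by
  rw [← ENNReal.tsum_set_one]
  exact _root_.tsum_subtype _ (fun _ => (1 : ℝ≥0∞))

/-- the thresholds -/
lemma union_bound {d : ℕ} (k : ℕ) (hk : 1 ≤ k) (f : (Fin d → ℤ) → ℂ) (n : ℤ) (q : ℝ) (hq0 : 0 < q)
    (hq1 : q < 1) (x : Fin d → ℤ) (hx : ENNReal.ofReal ((2 : ℝ) ^ n) < sphMax k f x) :
    ∃ m : ℕ, ENNReal.ofReal ((1 - q) / 2 * (q / 2) ^ m) <
      sphMax k ((Lv f (n - 1 + m)).indicator (fun _ => (1 : ℂ))) x := by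
  by_contra hcon
  push Not at hcon
  have h1 := sphMax_le k hk f n x
  have h2 : ∑' m : ℕ, ENNReal.ofReal ((2 : ℝ) ^ (n + m)) *
        sphMax k ((Lv f (n - 1 + m)).indicator (fun _ => (1 : ℂ))) x ≤
      ENNReal.ofReal ((2 : ℝ) ^ (n - 1)) := by
    have h3 : ∀ m : ℕ, ENNReal.ofReal ((2 : ℝ) ^ (n + m)) *
        sphMax k ((Lv f (n - 1 + m)).indicator (fun _ => (1 : ℂ))) x ≤
        ENNReal.ofReal ((2 : ℝ) ^ (n - 1) * (1 - q) * q ^ m) := by
      intro m
      calc _ ≤ ENNReal.ofReal ((2 : ℝ) ^ (n + m)) * ENNReal.ofReal ((1 - q) / 2 * (q / 2) ^ m) := by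
            gcongr
            exact hcon m
        _ = ENNReal.ofReal ((2 : ℝ) ^ (n + m) * ((1 - q) / 2 * (q / 2) ^ m)) :=
            (ENNReal.ofReal_mul (by positivity)).symm
        _ = _ := by
            congr 1
            rw [zpow_add₀ (by norm_num : (2 : ℝ) ≠ 0), zpow_natCast, zpow_sub₀ (by norm_num : (2 : ℝ) ≠ 0),
              zpow_one, div_pow]
            field_simp
    refine (ENNReal.tsum_le_tsum h3).trans ?_
    rw [← ENNReal.ofReal_tsum_of_nonneg (fun m => by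
      have : 0 ≤ 1 - q := by linarith
      positivity) ((summable_geometric_of_lt_one hq0.le hq1).mul_left _), tsum_mul_left,
      tsum_geometric_of_lt_one hq0.le hq1]
    refine ENNReal.ofReal_le_ofReal (le_of_eq ?_)
    have : 1 - q ≠ 0 := by linarith
    field_simp
  have h4 : sphMax k f x ≤ ENNReal.ofReal ((2 : ℝ) ^ n) := by
    refine h1.trans ((add_le_add le_rfl h2).trans (le_of_eq ?_))
    rw [← ENNReal.ofReal_add (by positivity) (by positivity)]
    congr 1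
    rw [zpow_sub₀ (by norm_num : (2 : ℝ) ≠ 0), zpow_one]
    ring
  exact absurd hx (not_lt.2 h4)

lemma distr_union {d : ℕ} (k : ℕ) (hk : 1 ≤ k) (f : (Fin d → ℤ) → ℂ) (n : ℤ) (q : ℝ) (hq0 : 0 < q)
    (hq1 : q < 1) :
    distr (sphMax k f) ((2 : ℝ) ^ n) ≤ ∑' m : ℕ,
      distr (sphMax k ((Lv f (n - 1 + m)).indicator (fun _ => (1 : ℂ)))) ((1 - q) / 2 * (q / 2) ^ m) := by
  simp only [distr_eq]
  rw [ENNReal.tsum_comm]
  refine ENNReal.tsum_le_tsum fun x => ?_
  by_cases hx : ENNReal.ofReal ((2 : ℝ) ^ n) < sphMax k f x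
  · obtain ⟨m, hm⟩ := union_bound k hk f n q hq0 hq1 x hx
    rw [Set.indicator_of_mem (by exact hx)]
    refine le_trans ?_ (ENNReal.le_tsum m)
    rw [Set.indicator_of_mem (by exact hm)]
  · rw [Set.indicator_of_notMem (by exact hx)]
    exact zero_le

/-- the Lorentz norm of an indicator -/
lemma lorentz_indicator {d : ℕ} (p : ℝ) (hp : 0 < p) (E : Set (Fin d → ℤ)) :
    lorentzNorm p (fun x => ENNReal.ofReal ‖E.indicator (fun _ => (1 : ℂ)) x‖) =
      ENNReal.ofReal p * ((E.encard : ℕ∞) : ℝ≥0∞) ^ (1 / p) := by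
  unfold lorentzNorm
  congr 1
  have h1 : ∀ t ∈ Set.Ioi (0 : ℝ), distr (fun x => ENNReal.ofReal ‖E.indicator (fun _ => (1 : ℂ)) x‖) t ^ (1 / p) =
      (Set.Iio (1 : ℝ)).indicator (fun _ => ((E.encard : ℕ∞) : ℝ≥0∞) ^ (1 / p)) t := by
    intro t ht
    have ht0 : (0 : ℝ) < t := ht
    by_cases h : t < 1
    · rw [Set.indicator_of_mem (by exact h)]
      unfold distr
      congr 3
      ext x
      simp only [Set.mem_ofPred_eq]
      by_cases hx : x ∈ E
      · rw [Set.indicator_of_mem hx, norm_one]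
        simp only [hx, iff_true]
        exact (ENNReal.ofReal_lt_ofReal_iff (by norm_num)).2 h
      · rw [Set.indicator_of_notMem hx, norm_zero]
        simp [hx]
    · rw [Set.indicator_of_notMem (by exact h)]
      unfold distr
      have : ({x | ENNReal.ofReal t < ENNReal.ofReal ‖E.indicator (fun _ => (1 : ℂ)) x‖} : Set (Fin d → ℤ)) = ∅ := by
        ext x
        simp only [Set.mem_ofPred_eq, Set.mem_empty_iff_false, iff_false, not_lt]
        refine ENNReal.ofReal_le_ofReal ?_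
        push Not at h
        refine le_trans ?_ h
        by_cases hx : x ∈ E
        · rw [Set.indicator_of_mem hx, norm_one]
        · rw [Set.indicator_of_notMem hx, norm_zero]; norm_num
      rw [this, Set.encard_empty]
      simp only [ENat.toENNReal_zero]
      rw [ENNReal.zero_rpow_of_pos (by positivity)]
  rw [MeasureTheory.setLIntegral_congr_fun measurableSet_Ioi h1, lint_layer, ENNReal.ofReal_one, mul_one]

/-- restricted weak type from the endpoint bound -/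
lemma restricted {d : ℕ} (k : ℕ) (p : ℝ) (hp : 0 < p) (C : ℝ≥0)
    (hC : ∀ f : (Fin d → ℤ) → ℂ, weakNorm p (sphMax k f) ≤
      C * lorentzNorm p (fun x => ENNReal.ofReal ‖f x‖)) (E : Set (Fin d → ℤ)) (b : ℝ) (hb : 0 < b) :
    distr (sphMax k (E.indicator (fun _ => (1 : ℂ)))) b ≤
      ((C : ℝ≥0∞) * ENNReal.ofReal p) ^ p * ENNReal.ofReal (b ^ (-p)) * ((E.encard : ℕ∞) : ℝ≥0∞) := by
  have h1 := hC (E.indicator (fun _ => (1 : ℂ)))
  rw [lorentz_indicator p hp] at h1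
  have h2 : ENNReal.ofReal b * distr (sphMax k (E.indicator (fun _ => (1 : ℂ)))) b ^ (1 / p) ≤
      (C : ℝ≥0∞) * (ENNReal.ofReal p * ((E.encard : ℕ∞) : ℝ≥0∞) ^ (1 / p)) := by
    refine le_trans ?_ h1
    unfold weakNorm
    exact le_iSup₂ (f := fun (t : ℝ) (_ : 0 < t) => ENNReal.ofReal t *
      distr (sphMax k (E.indicator (fun _ => (1 : ℂ)))) t ^ (1 / p)) b hb
  have h3 := ENNReal.rpow_le_rpow h2 hp.le
  rw [ENNReal.mul_rpow_of_nonneg _ _ hp.le, ← ENNReal.rpow_mul, one_div_mul_cancel hp.ne', ENNReal.rpow_one,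
    ← mul_assoc, ENNReal.mul_rpow_of_nonneg _ _ hp.le, ← ENNReal.rpow_mul, one_div_mul_cancel hp.ne',
    ENNReal.rpow_one] at h3
  have hb1 : ENNReal.ofReal b ^ p = ENNReal.ofReal (b ^ p) := ENNReal.ofReal_rpow_of_pos hb
  have hb2 : ENNReal.ofReal (b ^ (-p)) * ENNReal.ofReal (b ^ p) = 1 := by
    rw [← ENNReal.ofReal_mul (by positivity), ← Real.rpow_add hb]
    simp
  calc distr (sphMax k (E.indicator (fun _ => (1 : ℂ)))) b
      = ENNReal.ofReal (b ^ (-p)) * (ENNReal.ofReal b ^ p *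
        distr (sphMax k (E.indicator (fun _ => (1 : ℂ)))) b) := by
        rw [hb1, ← mul_assoc, hb2, one_mul]
    _ ≤ ENNReal.ofReal (b ^ (-p)) * (((C : ℝ≥0∞) * ENNReal.ofReal p) ^ p * ((E.encard : ℕ∞) : ℝ≥0∞)) := by
        gcongr
    _ = _ := by ring

end Pool.Agent.helper132_lp
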