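import Pool.Agent.helper132_lp.L2

/-! Strong type bounds for the k-spherical maximal function. -/

namespace Pool.Agent.helper132_lp

open Finset Pool.Agent.helper132_sph
open scoped ENNReal NNReal

lemma layer_le (p : ℝ) (hp : 1 ≤ p) (y : ℝ≥0∞) :
    y ^ p ≤ ∑' n : ℤ, ENNReal.ofReal (((2 : ℝ) ^ (n + 1)) ^ p) *
      ({y : ℝ≥0∞ | ENNReal.ofReal ((2 : ℝ) ^ n) < y}.indicator (fun _ => (1 : ℝ≥0∞)) y) := by
  have hp0 : 0 < p := by linarith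
  rcases eq_or_ne y 0 with h0 | h0
  · rw [h0, ENNReal.zero_rpow_of_pos hp0]; exact zero_le
  rcases eq_or_ne y ⊤ with ht | ht
  · rw [ht]
    have : ∑' n : ℤ, ENNReal.ofReal (((2 : ℝ) ^ (n + 1)) ^ p) *
      ({y : ℝ≥0∞ | ENNReal.ofReal ((2 : ℝ) ^ n) < y}.indicator (fun _ => (1 : ℝ≥0∞)) ⊤) = ⊤ := by
      refine ENNReal.eq_top_of_forall_nnreal_le fun r => ?_
      obtain ⟨N, hN⟩ := pow_unbounded_of_one_lt (r : ℝ) (one_lt_two (α := ℝ))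
      refine le_trans ?_ (ENNReal.le_tsum (N : ℤ))
      rw [Set.indicator_of_mem (by simp), mul_one]
      have h1 : (r : ℝ) ≤ ((2 : ℝ) ^ ((N : ℤ) + 1)) ^ p := by
        have h2 : (1 : ℝ) ≤ (2 : ℝ) ^ ((N : ℤ) + 1) := by
          have e : ((N : ℤ) + 1) = ((N + 1 : ℕ) : ℤ) := by push_cast; rfl
          rw [e, zpow_natCast]
          exact one_le_pow₀ (by norm_num)
        have h3 : (r : ℝ) ≤ (2 : ℝ) ^ ((N : ℤ) + 1) := by
          have e : ((N : ℤ) + 1) = ((N + 1 : ℕ) : ℤ) := by push_cast; rfl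
          rw [e, zpow_natCast]
          refine hN.le.trans ?_
          exact pow_le_pow_right₀ (by norm_num) (by omega)
        calc (r : ℝ) ≤ (2 : ℝ) ^ ((N : ℤ) + 1) := h3
          _ = ((2 : ℝ) ^ ((N : ℤ) + 1)) ^ (1 : ℝ) := (Real.rpow_one _).symm
          _ ≤ _ := Real.rpow_le_rpow_of_exponent_le h2 hp
      calc (r : ℝ≥0∞) = ENNReal.ofReal (r : ℝ) := (ENNReal.ofReal_coe_nnreal).symm
        _ ≤ _ := ENNReal.ofReal_le_ofReal h1
    rw [this]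
    exact le_top
  · obtain ⟨v, hv, hvy⟩ : ∃ v : ℝ, 0 < v ∧ ENNReal.ofReal v = y :=
      ⟨y.toReal, ENNReal.toReal_pos h0 ht, ENNReal.ofReal_toReal ht⟩
    obtain ⟨n, hn1, hn2⟩ := exists_mem_Ioc_zpow hv (one_lt_two (α := ℝ))
    refine le_trans ?_ (ENNReal.le_tsum n)
    rw [Set.indicator_of_mem, mul_one, ← hvy, ENNReal.ofReal_rpow_of_pos hv]
    · exact ENNReal.ofReal_le_ofReal (Real.rpow_le_rpow hv.le hn2 hp0.le)
    · change ENNReal.ofReal ((2 : ℝ) ^ n) < y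
      rw [← hvy]
      exact (ENNReal.ofReal_lt_ofReal_iff hv).2 hn1

lemma level_sum_le {d : ℕ} (p : ℝ) (hp : 0 < p) (f : (Fin d → ℤ) → ℂ) (x : Fin d → ℤ) :
    ∑' j : ℤ, ENNReal.ofReal (((2 : ℝ) ^ j) ^ p) * (Lv f j).indicator (fun _ => (1 : ℝ≥0∞)) x ≤
      ENNReal.ofReal ‖f x‖ ^ p := by
  by_cases h : ∃ j, x ∈ Lv f j
  · obtain ⟨j, hj⟩ := h
    rw [tsum_eq_single j]
    · rw [Set.indicator_of_mem hj, mul_one]
      have h1 : 0 < ‖f x‖ := lt_trans (by positivity) hj.1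
      rw [ENNReal.ofReal_rpow_of_pos h1]
      exact ENNReal.ofReal_le_ofReal (Real.rpow_le_rpow (by positivity) hj.1.le hp.le)
    · intro i hi
      rw [Set.indicator_of_notMem, mul_zero]
      intro hi2
      apply hi
      have h1 : i < j + 1 :=
        (zpow_lt_zpow_iff_right₀ (one_lt_two (α := ℝ))).1 (hi2.1.trans_le hj.2)
      have h2 : j < i + 1 :=
        (zpow_lt_zpow_iff_right₀ (one_lt_two (α := ℝ))).1 (hj.1.trans_le hi2.2)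
      omega
  · have h0 : ∀ j : ℤ, ENNReal.ofReal (((2 : ℝ) ^ j) ^ p) * (Lv f j).indicator (fun _ => (1 : ℝ≥0∞)) x = 0 := by
      intro j
      rw [Set.indicator_of_notMem (fun hj => h ⟨j, hj⟩), mul_zero]
    simp only [h0, tsum_zero]
    exact zero_le

/-- the main summation. -/
lemma strong_aux {d : ℕ} (k : ℕ) (hk : 1 ≤ k) (p0 p : ℝ) (hp0 : 1 ≤ p0) (hpp : p0 < p) (K : ℝ≥0∞)
    (hK : K ≠ ⊤)
    (hR : ∀ (E : Set (Fin d → ℤ)) (b : ℝ), 0 < b →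
      distr (sphMax k (E.indicator (fun _ => (1 : ℂ)))) b ≤
        K * ENNReal.ofReal (b ^ (-p0)) * ((E.encard : ℕ∞) : ℝ≥0∞)) :
    ∃ A : ℝ≥0∞, A ≠ ⊤ ∧ ∀ f : (Fin d → ℤ) → ℂ,
      ∑' x, sphMax k f x ^ p ≤ A * ∑' x, ENNReal.ofReal ‖f x‖ ^ p := by
  have hp1 : 1 < p := by linarith
  have hp00 : 0 < p0 := by linarith
  have hpos : 0 < p := by linarith
  obtain ⟨q, hq⟩ : ∃ q : ℝ, q = 2 ^ ((1 - p / p0) / 2) := ⟨_, rfl⟩
  have hq0 : 0 < q := by rw [hq]; positivity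
  have hq1 : q < 1 := by
    rw [hq]
    refine Real.rpow_lt_one_of_one_lt_of_neg (by norm_num) ?_
    have : 1 < p / p0 := by rw [lt_div_iff₀ hp00]; linarith
    linarith
  obtain ⟨θ, hθ⟩ : ∃ θ : ℝ, θ = (2 : ℝ) ^ (-p) * (q / 2) ^ (-p0) := ⟨_, rfl⟩
  have hθ0 : 0 ≤ θ := by rw [hθ]; positivity
  have hθ1 : θ < 1 := by
    have h1 : q / 2 = 2 ^ ((1 - p / p0) / 2 - 1) := by
      rw [hq, Real.rpow_sub (by norm_num), Real.rpow_one]
    rw [hθ, h1, ← Real.rpow_mul (by norm_num), ← Real.rpow_add (by norm_num)]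
    refine Real.rpow_lt_one_of_one_lt_of_neg (by norm_num) ?_
    have h2 : ((1 - p / p0) / 2 - 1) * -p0 = (p0 + p) / 2 := by field_simp; ring
    rw [h2]
    linarith
  obtain ⟨c0, hc0⟩ : ∃ c0 : ℝ, c0 = (4 : ℝ) ^ p * ((1 - q) / 2) ^ (-p0) := ⟨_, rfl⟩
  have h1q : 0 < 1 - q := by linarith
  have hc00 : 0 ≤ c0 := by rw [hc0]; positivity
  refine ⟨K * ENNReal.ofReal (c0 * (1 - θ)⁻¹), ENNReal.mul_ne_top hK ENNReal.ofReal_ne_top, ?_⟩
  intro f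
  -- layer cake
  have s1 : ∑' x, sphMax k f x ^ p ≤
      ∑' n : ℤ, ENNReal.ofReal (((2 : ℝ) ^ (n + 1)) ^ p) * distr (sphMax k f) ((2 : ℝ) ^ n) := by
    refine (ENNReal.tsum_le_tsum fun x => layer_le p hp1.le (sphMax k f x)).trans ?_
    rw [ENNReal.tsum_comm]
    refine ENNReal.tsum_le_tsum fun n => ?_
    rw [ENNReal.tsum_mul_left, distr_eq]
    refine le_of_eq ?_
    rfl
  have s2 : ∀ n : ℤ, ENNReal.ofReal (((2 : ℝ) ^ (n + 1)) ^ p) * distr (sphMax k f) ((2 : ℝ) ^ n) ≤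
      ∑' m : ℕ, ENNReal.ofReal (((2 : ℝ) ^ (n + 1)) ^ p) *
        (K * ENNReal.ofReal (((1 - q) / 2 * (q / 2) ^ m) ^ (-p0)) *
          (((Lv f (n - 1 + m)).encard : ℕ∞) : ℝ≥0∞)) := by
    intro n
    rw [ENNReal.tsum_mul_left]
    gcongr
    refine (distr_union k hk f n q hq0 hq1).trans (ENNReal.tsum_le_tsum fun m => ?_)
    exact hR _ _ (by positivity)
  have s3 : ∀ m : ℕ, ∑' n : ℤ, ENNReal.ofReal (((2 : ℝ) ^ (n + 1)) ^ p) *
        (K * ENNReal.ofReal (((1 - q) / 2 * (q / 2) ^ m) ^ (-p0)) *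
          (((Lv f (n - 1 + m)).encard : ℕ∞) : ℝ≥0∞)) =
      ENNReal.ofReal (c0 * θ ^ m) * K * ∑' j : ℤ, ENNReal.ofReal (((2 : ℝ) ^ j) ^ p) *
        (((Lv f j).encard : ℕ∞) : ℝ≥0∞) := by
    intro m
    rw [← (Equiv.addRight (1 - (m : ℤ))).tsum_eq, ← ENNReal.tsum_mul_left]
    refine tsum_congr fun j => ?_
    simp only [Equiv.coe_addRight]
    have e1 : j + (1 - (m : ℤ)) - 1 + m = j := by ring
    rw [e1]
    have e2 : ENNReal.ofReal (((2 : ℝ) ^ (j + (1 - (m : ℤ)) + 1)) ^ p) *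
        ENNReal.ofReal (((1 - q) / 2 * (q / 2) ^ m) ^ (-p0)) =
        ENNReal.ofReal (c0 * θ ^ m) * ENNReal.ofReal (((2 : ℝ) ^ j) ^ p) := by
      rw [← ENNReal.ofReal_mul (by positivity), ← ENNReal.ofReal_mul (by positivity)]
      congr 1
      have e3 : (2 : ℝ) ^ (j + (1 - (m : ℤ)) + 1) = (2 : ℝ) ^ j * (4 * ((2 : ℝ)⁻¹) ^ m) := by
        have : j + (1 - (m : ℤ)) + 1 = j + (2 - (m : ℤ)) := by ring
        rw [this, zpow_add₀ (by norm_num : (2 : ℝ) ≠ 0), zpow_sub₀ (by norm_num : (2 : ℝ) ≠ 0),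
          zpow_natCast, inv_pow, div_eq_mul_inv]
        norm_num
      rw [e3, Real.mul_rpow (by positivity) (by positivity), Real.mul_rpow (by positivity) (by positivity),
        Real.mul_rpow (by positivity) (by positivity), hc0, hθ, mul_pow]
      have e4 : (((2 : ℝ)⁻¹) ^ m) ^ p = ((2 : ℝ) ^ (-p)) ^ m := by
        rw [← Real.rpow_natCast, ← Real.rpow_natCast, ← Real.rpow_mul (by positivity),
          ← Real.rpow_mul (by positivity), Real.inv_rpow (by positivity), ← Real.rpow_neg (by positivity)]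
        congr 1; ring
      have e5 : ((q / 2) ^ m) ^ (-p0) = ((q / 2) ^ (-p0)) ^ m := by
        rw [← Real.rpow_natCast, ← Real.rpow_natCast, ← Real.rpow_mul (by positivity),
          ← Real.rpow_mul (by positivity)]
        congr 1; ring
      rw [e4, e5]
      ring
    calc _ = (ENNReal.ofReal (((2 : ℝ) ^ (j + (1 - (m : ℤ)) + 1)) ^ p) *
        ENNReal.ofReal (((1 - q) / 2 * (q / 2) ^ m) ^ (-p0))) * (K * (((Lv f j).encard : ℕ∞) : ℝ≥0∞)) := by ring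
      _ = _ := by rw [e2]; ring
  have s4 : ∑' j : ℤ, ENNReal.ofReal (((2 : ℝ) ^ j) ^ p) * (((Lv f j).encard : ℕ∞) : ℝ≥0∞) ≤
      ∑' x, ENNReal.ofReal ‖f x‖ ^ p := by
    have h1 : ∀ j : ℤ, ENNReal.ofReal (((2 : ℝ) ^ j) ^ p) * (((Lv f j).encard : ℕ∞) : ℝ≥0∞) =
        ∑' x, ENNReal.ofReal (((2 : ℝ) ^ j) ^ p) * (Lv f j).indicator (fun _ => (1 : ℝ≥0∞)) x := by
      intro j
      rw [encard_eq, ENNReal.tsum_mul_left]
    simp only [h1]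
    rw [ENNReal.tsum_comm]
    exact ENNReal.tsum_le_tsum fun x => level_sum_le p hpos f x
  calc ∑' x, sphMax k f x ^ p ≤ _ := s1
    _ ≤ _ := ENNReal.tsum_le_tsum s2
    _ = ∑' m : ℕ, (ENNReal.ofReal (c0 * θ ^ m) * K * ∑' j : ℤ, ENNReal.ofReal (((2 : ℝ) ^ j) ^ p) *
        (((Lv f j).encard : ℕ∞) : ℝ≥0∞)) := by
        rw [ENNReal.tsum_comm]
        exact tsum_congr s3
    _ ≤ ∑' m : ℕ, (ENNReal.ofReal (c0 * θ ^ m) * K * ∑' x, ENNReal.ofReal ‖f x‖ ^ p) := by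
        refine ENNReal.tsum_le_tsum fun m => ?_
        gcongr
    _ = (∑' m : ℕ, ENNReal.ofReal (c0 * θ ^ m)) * K * ∑' x, ENNReal.ofReal ‖f x‖ ^ p := by
        rw [ENNReal.tsum_mul_right, ENNReal.tsum_mul_right]
    _ = ENNReal.ofReal (c0 * (1 - θ)⁻¹) * K * ∑' x, ENNReal.ofReal ‖f x‖ ^ p := by
        rw [← ENNReal.ofReal_tsum_of_nonneg (fun m => by positivity)
          ((summable_geometric_of_lt_one hθ0 hθ1).mul_left _), tsum_mul_left,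
          tsum_geometric_of_lt_one hθ0 hθ1]
    _ = _ := by rw [mul_comm (ENNReal.ofReal (c0 * (1 - θ)⁻¹)) K]

/-- the `ℓ^p` quantity. -/
noncomputable def lpNorm' {d : ℕ} (p : ℝ) (g : (Fin d → ℤ) → ℝ≥0∞) : ℝ≥0∞ :=
  (∑' x, g x ^ p) ^ (1 / p)

/-- Strong type bounds from the endpoint bound. -/
theorem strong_of_endpoint {d : ℕ} (k : ℕ) (hk : 1 ≤ k) (p0 p : ℝ) (hp0 : 1 ≤ p0) (hpp : p0 < p) (C : ℝ≥0)
    (hC : ∀ f : (Fin d → ℤ) → ℂ, weakNorm p0 (sphMax k f) ≤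
      C * lorentzNorm p0 (fun x => ENNReal.ofReal ‖f x‖)) :
    ∃ C' : ℝ≥0, ∀ f : (Fin d → ℤ) → ℂ,
      (∑' x, sphMax k f x ^ p) ^ (1 / p) ≤ C' * (∑' x, ENNReal.ofReal ‖f x‖ ^ p) ^ (1 / p) := by
  have hp00 : 0 < p0 := by linarith
  have hpos : 0 < p := by linarith
  obtain ⟨A, hA, h⟩ := strong_aux k hk p0 p hp0 hpp (((C : ℝ≥0∞) * ENNReal.ofReal p0) ^ p0)
    (ENNReal.rpow_ne_top_of_nonneg hp00.le (ENNReal.mul_ne_top ENNReal.coe_ne_top ENNReal.ofReal_ne_top))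
    (fun E b hb => restricted k p0 hp00 C hC E b hb)
  have hA' : A ^ (1 / p) ≠ ⊤ := ENNReal.rpow_ne_top_of_nonneg (by positivity) hA
  refine ⟨(A ^ (1 / p)).toNNReal, fun f => ?_⟩
  rw [ENNReal.coe_toNNReal hA', ← ENNReal.mul_rpow_of_nonneg _ _ (by positivity)]
  exact ENNReal.rpow_le_rpow (h f) (by positivity)

/-- contraction on `ℓ^∞`. -/
lemma sphMax_le_sup {d : ℕ} (k : ℕ) (hk : 1 ≤ k) (f : (Fin d → ℤ) → ℂ) (x : Fin d → ℤ) :
    sphMax k f x ≤ ⨆ y, ENNReal.ofReal ‖f y‖ := by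
  unfold sphMax
  refine iSup₂_le fun r hr => ?_
  obtain ⟨N, hN1, hN2⟩ := radii_nat k d r hr
  refine (ofReal_norm_sphAvg_le k N r hk hN2 f x).trans ?_
  unfold PA
  calc (∑ y ∈ SpF k d N, ENNReal.ofReal ‖f (x - y)‖) * ((SpF k d N).card : ℝ≥0∞)⁻¹
      ≤ (∑ y ∈ SpF k d N, ⨆ y, ENNReal.ofReal ‖f y‖) * ((SpF k d N).card : ℝ≥0∞)⁻¹ := by
        gcongr with y _
        exact le_iSup (fun y => ENNReal.ofReal ‖f y‖) (x - y)
    _ = (((SpF k d N).card : ℝ≥0∞)⁻¹ * ((SpF k d N).card : ℝ≥0∞)) * ⨆ y, ENNReal.ofReal ‖f y‖ := by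
        rw [Finset.sum_const, nsmul_eq_mul]; ring
    _ ≤ 1 * ⨆ y, ENNReal.ofReal ‖f y‖ := by
        gcongr
        exact ENNReal.inv_mul_le_one _
    _ = _ := one_mul _

end Pool.Agent.helper132_lp
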